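import Pool.Agent.Helper93.VL.Asm
import Pool.Agent.Helper93.VL.Sol

/-!
# The solutions of the equation `V_1(n) = 1` of Erdős and Selfridge

`V_1(n) = 1` if and only if `n` is one of the numbers `1, 2, 3, 4, 6, 7, 8, 12, 15, 16, 24, 30, 48, 80`.

Proof. Let `V_1(n) = 1`. Let `P = p ^ j` be the least prime power which does not divide `n`; then
`n = i (p ^ c - 1)` with `1 ≤ i < P` (as in the proof of finiteness).

(1) If `s` is an odd prime divisor of `c = s w`, then `c ≤ s i`. Otherwise `p ^ (2 c) - 1` and
`p ^ (2 w) - 1` have primitive prime divisors `≡ 1` modulo `2 c` and `2 w` (Zsigmondy). They are different,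
larger than `2 i`, and both divide `p ^ c + 1`, so `n + 2 i = i (p ^ c + 1)`, which contradicts
`V(n; 2 i) ≤ 1`.

(2) Let `s` be an odd prime such that `l = 2 s + 1 < P` is prime. If `l` does not divide
`i p (p ^ 2 - 1)`, then `s` divides the order of `p` modulo `l` and so `c`. The product of the other `l` is at
most `P ^ 4`. So `c`, and by (1) also `s P` for some such `s`, is at least the product of all these `s`
divided by `P ^ 4`. This is false for `983 < P < 2 ^ 402` (`264` primes `s`).

(3) If `P ≥ 2 ^ 402`: by (1) we may suppose `c < P ^ 2`; the number of the primes `l < P` with a given order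
of `p` modulo `l` is at most `√(P log P / log 2)`, the order divides `c` (unless `l` divides `p i`), and
`τ(c) ^ 5 ≤ 263 · 39 ^ 10 · c`; this contradicts the theorem of Chebyshev.

(4) `p = 2`, `P ≥ 8`: `i = P / 2` and `12 ∣ c`, and `2 ^ c + 1` has two different prime divisors, which are
larger than `P = 2 i`.

(5) `8 ≤ P ≤ 983`, `p` odd: for all `P` and `i` the orders of `p` modulo the primes and prime powers
below `P` give an odd prime `s ∣ c`, so `c ≤ s i`, and more divisors of `c`; finitely many `c` remain, and for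
these a prime power below `P` does not divide `n`, or `V(n; k) ≥ 2` for some `k ≤ 12`.

(6) `P ≤ 7`: `c` is at most `3 r + 2` with `p ^ r + 1 ≤ (k + 3) ^ (k + 3)`, `k ≤ i (1 + p ^ 2)`, because
`n + k = i p ^ b (p ^ (3 r) + 1)` for `k = i (1 + p ^ b)`, `c = 3 r + b`; the remaining numbers are checked.

The finite parts are checked by the kernel. Modules by helper17 (MED, PTWO), helper23 (SOL), helper67
(LARGE, FC), helper72 (FA), helper77 (ZSIG, LIST), helper93.
-/

namespace Pool.Agent.Results.MP_8ddb3c_nt.AllSolutions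

/-- `V n k` is the number of the primes `p ∣ n + k` such that the exact power of `p` in `n + k` divides
none of `n, n + 1, ..., n + k - 1`. -/
noncomputable def V (n k : ℕ) : ℕ :=
  by classical exact ((n + k).primeFactors.filter
    (fun p => ∀ j, j < k → ¬ p ^ ((n + k).factorization p) ∣ n + j)).card

/-- For `n ≥ 1` the greatest of the values `V n k`, `k ≥ 1`, is `1` if and only if `n` is one of the fourteen
numbers of the list. -/
theorem result (n : ℕ) (hn : 1 ≤ n) :
    IsGreatest {v | ∃ k, 1 ≤ k ∧ V n k = v} 1 ↔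
      n ∈ ({1, 2, 3, 4, 6, 7, 8, 12, 15, 16, 24, 30, 48, 80} : Finset ℕ) := by
  have e : V = Pool.Agent.Helper93.VL.V := rfl
  have hmem : n ∈ ({1, 2, 3, 4, 6, 7, 8, 12, 15, 16, 24, 30, 48, 80} : Finset ℕ) ↔
      n ∈ Pool.Agent.Helper93.VL.sols := by
    simp [Pool.Agent.Helper93.VL.sols]
  rw [hmem]
  constructor
  · rintro ⟨-, h⟩
    refine Pool.Agent.Helper93.VL.ASM.main n ⟨hn, fun k hk => ?_⟩
    rw [← e]
    exact h ⟨k, hk, rfl⟩
  · intro h
    obtain ⟨⟨-, h1⟩, k, hk, h2⟩ := Pool.Agent.Helper93.VL.SOL.main n h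
    refine ⟨⟨k, hk, by rw [e]; exact h2⟩, ?_⟩
    rintro v ⟨k', hk', rfl⟩
    rw [e]
    exact h1 k' hk'

end Pool.Agent.Results.MP_8ddb3c_nt.AllSolutions
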